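import Pool.Agent.Q85.VL.Defs

set_option autoImplicit false

/-!
Project VL (helper85), job VL-13: regularisation of the Lyapunov function.
-/

open MeasureTheory Set Metric Filter Topology
open scoped ContDiff Convolution
open H459R3.NS Pool.Agent.W268.NS Pool.Agent.Q67.VD

namespace Pool.Agent.Q61.VL

open Pool.Agent.Q85.CC Pool.Agent.Q85.CL Pool.Agent.Q151.CC Pool.Agent.Q85.VL

/-! ### the Euclidean length -/

theorem len_eq (a : V) : len a = ‖(WithLp.toLp 2 a : EuclideanSpace ℝ (Fin 3))‖ := by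
  rw [EuclideanSpace.norm_eq, len]
  congr 1
  rw [dotProduct]
  refine Finset.sum_congr rfl fun i _ => ?_
  rw [Real.norm_eq_abs, sq_abs]
  ring

theorem len_zero : len 0 = 0 := by rw [len_eq]; simp

theorem len_nonneg (a : V) : 0 ≤ len a := Real.sqrt_nonneg _

theorem len_neg (a : V) : len (-a) = len a := by
  rw [len_eq, len_eq, WithLp.toLp_neg, norm_neg]

theorem len_smul (c : ℝ) (a : V) : len (c • a) = |c| * len a := by
  rw [len_eq, len_eq, WithLp.toLp_smul, norm_smul, Real.norm_eq_abs]

theorem len_add_le (a b : V) : len (a + b) ≤ len a + len b := by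
  rw [len_eq, len_eq, len_eq, WithLp.toLp_add]
  exact norm_add_le _ _

theorem len_sub_comm (a b : V) : len (a - b) = len (b - a) := by
  rw [← len_neg, neg_sub]

theorem len_pos {a : V} (h : a ≠ 0) : 0 < len a := by
  rw [len_eq, norm_pos_iff]
  intro h2
  apply h
  have := congrArg (WithLp.ofLp) h2
  simpa using this

theorem ne_zero_of_len {a : V} (h : 0 < len a) : a ≠ 0 := by
  rintro rfl
  rw [len_zero] at h
  exact lt_irrefl _ h

theorem norm_le_len (a : V) : ‖a‖ ≤ len a := by
  rw [pi_norm_le_iff_of_nonneg (len_nonneg a)]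
  intro i
  rw [len_eq]
  have := EuclideanSpace.norm_eq (WithLp.toLp 2 a : EuclideanSpace ℝ (Fin 3))
  exact PiLp.norm_apply_le (WithLp.toLp 2 a : EuclideanSpace ℝ (Fin 3)) i

theorem len_le_norm (a : V) : len a ≤ 2 * ‖a‖ := by
  unfold len
  have h1 : a ⬝ᵥ a ≤ (2 * ‖a‖) ^ 2 := by
    unfold dotProduct
    have h2 : ∀ i ∈ (Finset.univ : Finset (Fin 3)), a i * a i ≤ ‖a‖ ^ 2 := by
      intro i _
      have h3 := norm_le_pi_norm a i
      rw [Real.norm_eq_abs] at h3
      have h4 : |a i| ^ 2 ≤ ‖a‖ ^ 2 := pow_le_pow_left₀ (abs_nonneg _) h3 2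
      rw [sq_abs] at h4
      linarith
    have h3 := Finset.sum_le_card_nsmul _ _ _ h2
    rw [nsmul_eq_mul, Finset.card_univ, Fintype.card_fin] at h3
    push_cast at h3
    nlinarith [sq_nonneg ‖a‖]
  calc √(a ⬝ᵥ a) ≤ √((2 * ‖a‖) ^ 2) := Real.sqrt_le_sqrt h1
    _ = 2 * ‖a‖ := Real.sqrt_sq (by positivity)

theorem len_cont : Continuous len := by
  unfold len
  exact Real.continuous_sqrt.comp (by fun_prop)

theorem len_cd {a : V} (h : a ≠ 0) : ContDiffAt ℝ ∞ len a := by
  unfold len
  have h1 : ContDiffAt ℝ ∞ (fun a : V => a ⬝ᵥ a) a := by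
    unfold dotProduct
    fun_prop
  refine h1.sqrt ?_
  have h2 := len_pos h
  unfold len at h2
  exact (Real.sqrt_pos.1 h2).ne'

theorem lip_of {g : V → ℝ} (h : ∀ y z, |g y - g z| ≤ len (y - z)) : LipschitzWith 2 g := by
  refine LipschitzWith.of_dist_le_mul fun y z => ?_
  rw [Real.dist_eq, dist_eq_norm]
  exact (h y z).trans (len_le_norm _)

theorem fd_le_len {g : V → ℝ} (h : ∀ y z, |g y - g z| ≤ len (y - z)) {y : V} (hd : DifferentiableAt ℝ g y) (n : V) :
    |fderiv ℝ g y n| ≤ len n := by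
  have h1 : HasDerivAt (fun t : ℝ => g (y + t • n)) (fderiv ℝ g y n) 0 := by
    have h2 : HasDerivAt (fun t : ℝ => y + t • n) n 0 := by
      have := ((hasDerivAt_id (0 : ℝ)).smul_const n).const_add y
      simpa using this
    have h3 : HasFDerivAt g (fderiv ℝ g y) (y + (0 : ℝ) • n) := by
      rw [zero_smul, add_zero]; exact hd.hasFDerivAt
    exact h3.comp_hasDerivAt 0 h2
  have h2 := h1.tendsto_slope.abs
  refine le_of_tendsto h2 ?_
  filter_upwards [self_mem_nhdsWithin] with t ht
  have ht' : t ≠ 0 := ht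
  rw [slope_def_field, zero_smul, add_zero, sub_zero, abs_div, div_le_iff₀ (abs_pos.2 ht')]
  refine (h _ _).trans ?_
  rw [add_sub_cancel_left, len_smul, mul_comm]

/-! ### smoothness of the vorticity -/

theorem gradM_sm {v : V → V} (hv : SM v) (i j : Fin 3) : ContDiff ℝ ∞ (fun x => gradM v x i j) := by
  unfold gradM
  simp only [Matrix.of_apply]
  have h1 : ContDiff ℝ ∞ (fderiv ℝ (fun y => v y j)) := (hv j).fderiv_right (by simp)
  exact h1.clm_apply contDiff_const

theorem vort_sm {v : V → V} (hv : SM v) : ContDiff ℝ ∞ (vort v) := by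
  rw [contDiff_pi]
  intro i
  fin_cases i
  · exact (gradM_sm hv 1 2).sub (gradM_sm hv 2 1)
  · exact (gradM_sm hv 2 0).sub (gradM_sm hv 0 2)
  · exact (gradM_sm hv 0 1).sub (gradM_sm hv 1 0)

/-! ### arcs -/

/-- existence of short arcs where the field is a smooth nonzero field in a ball -/
theorem arcs {z F : V → V} {D : Set V} {y : V} {δ : ℝ} (hδ : 0 < δ) (hz : ∀ p ∈ ball y δ, z p = F p) (hD : ball y δ ⊆ D)
    (hF : ContDiff ℝ ∞ F) (h0 : F y ≠ 0) : ∃ γ : ℝ → V, γ 0 = y ∧ HasDerivAt γ ((len (F y))⁻¹ • F y) 0 ∧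
      ∃ l₀ : ℝ, 0 < l₀ ∧ ∀ l, 0 < l → l < l₀ → Arc z D y (γ l) l := by
  have h1 : ContDiffAt ℝ 1 (fun p => (len (F p))⁻¹ • F p) y := by
    have h2 : ContDiffAt ℝ ∞ (fun p => (len (F p))⁻¹ • F p) y := by
      have h3 : ContDiffAt ℝ ∞ (fun p => len (F p)) y := (len_cd h0).comp y hF.contDiffAt
      exact (h3.inv (len_pos h0).ne').smul hF.contDiffAt
    exact h2.of_le (by norm_cast)
  obtain ⟨γ, hγ0, ε, hε, hγ⟩ := h1.exists_forall_mem_closedBall_exists_eq_forall_mem_Ioo_hasDerivAt₀ 0
  rw [zero_sub, zero_add] at hγ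
  have hd0 : HasDerivAt γ ((len (F y))⁻¹ • F y) 0 := by
    have := hγ 0 ⟨by linarith, hε⟩
    rwa [hγ0] at this
  refine ⟨γ, hγ0, hd0, ?_⟩
  have hc := hd0.continuousAt
  rw [ContinuousAt, hγ0] at hc
  obtain ⟨l₁, hl₁, hl⟩ := Metric.mem_nhds_iff.1 (hc (ball_mem_nhds y hδ))
  refine ⟨min l₁ ε, by positivity, fun l hl0 hl2 => ⟨hl0, γ, hγ0, rfl, fun s hs => ?_⟩⟩
  have hs1 : s < l₁ := hs.2.trans_lt (hl2.trans_le (min_le_left _ _))
  have hs2 : s < ε := hs.2.trans_lt (hl2.trans_le (min_le_right _ _))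
  have hs3 : γ s ∈ ball y δ := by
    apply hl
    rw [Metric.mem_ball, Real.dist_eq, sub_zero, abs_of_nonneg hs.1]
    exact hs1
  refine ⟨hD hs3, ?_⟩
  rw [hz _ hs3]
  exact (hγ s ⟨by linarith [hs.1], hs2⟩).hasDerivWithinAt

theorem fd_arc {z F : V → V} {D : Set V} {y : V} {δ ε : ℝ} (hδ : 0 < δ) (hz : ∀ p ∈ ball y δ, z p = F p)
    (hD : ball y δ ⊆ D) (hF : ContDiff ℝ ∞ F) (h0 : F y ≠ 0) {g : V → ℝ} (hd : DifferentiableAt ℝ g y)
    (hg : ∀ p q l, Arc z D p q l → g p + ε * l ≤ g q) : ε * len (F y) ≤ fderiv ℝ g y (F y) := by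
  obtain ⟨γ, hγ0, hγ, l₀, hl₀, harc⟩ := arcs hδ hz hD hF h0
  have h1 : HasDerivAt (fun t : ℝ => g (γ t)) (fderiv ℝ g y ((len (F y))⁻¹ • F y)) 0 := by
    have h3 : HasFDerivAt g (fderiv ℝ g y) (γ 0) := by
      rw [hγ0]; exact hd.hasFDerivAt
    exact h3.comp_hasDerivAt 0 hγ
  have h2 : Tendsto (slope (fun t : ℝ => g (γ t)) 0) (𝓝[>] 0) (𝓝 (fderiv ℝ g y ((len (F y))⁻¹ • F y))) :=
    h1.tendsto_slope.mono_left (nhdsWithin_mono _ fun t (ht : 0 < t) => ht.ne')
  have h3 : ε ≤ fderiv ℝ g y ((len (F y))⁻¹ • F y) := by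
    refine ge_of_tendsto h2 ?_
    filter_upwards [Ioo_mem_nhdsGT hl₀] with t ht
    rw [slope_def_field, hγ0, sub_zero, le_div_iff₀ ht.1]
    have := hg _ _ _ (harc t ht.1 ht.2)
    linarith
  rw [map_smul, smul_eq_mul] at h3
  have h4 := len_pos h0
  calc ε * len (F y) ≤ ((len (F y))⁻¹ * fderiv ℝ g y (F y)) * len (F y) := mul_le_mul_of_nonneg_right h3 h4.le
    _ = fderiv ℝ g y (F y) := by field_simp

/-! ### mollification -/

/-- the regularised function -/
noncomputable def mo (φ : ContDiffBump (0 : V)) (g : V → ℝ) (y : V) : ℝ := ∫ t, φ.normed volume t * g (y - t)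

theorem mo_sm (φ : ContDiffBump (0 : V)) {g : V → ℝ} (hg : Continuous g) : ContDiff ℝ ∞ (mo φ g) := by
  have h1 : mo φ g = φ.normed volume ⋆[ContinuousLinearMap.lsmul ℝ ℝ, volume] g := by
    funext y
    unfold mo
    rw [convolution_def]
    simp only [ContinuousLinearMap.lsmul_apply, smul_eq_mul]
  rw [h1]
  exact HasCompactSupport.contDiff_convolution_left _ φ.hasCompactSupport_normed φ.contDiff_normed hg.locallyIntegrable

theorem mo_int (φ : ContDiffBump (0 : V)) {g : V → ℝ} (hg : Continuous g) (y : V) :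
    Integrable (fun t => φ.normed volume t * g (y - t)) := by
  have h1 : Continuous fun t => φ.normed volume t * g (y - t) := φ.continuous_normed.mul (hg.comp (by fun_prop))
  exact h1.integrable_of_hasCompactSupport (φ.hasCompactSupport_normed.mul_right)

theorem mo_lip (φ : ContDiffBump (0 : V)) {g : V → ℝ} (hg : ∀ y z, |g y - g z| ≤ len (y - z)) (y z : V) :
    |mo φ g y - mo φ g z| ≤ len (y - z) := by
  have hc : Continuous g := (lip_of hg).continuous
  unfold mo
  rw [← integral_sub (mo_int φ hc y) (mo_int φ hc z), ← Real.norm_eq_abs]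
  have h1 : ∫ t, φ.normed volume t * len (y - z) = len (y - z) := by
    rw [integral_mul_const, φ.integral_normed, one_mul]
  rw [← h1]
  refine norm_integral_le_of_norm_le (φ.integrable_normed.mul_const _) (Eventually.of_forall fun t => ?_)
  rw [← mul_sub, norm_mul, Real.norm_eq_abs, Real.norm_eq_abs, abs_of_nonneg (φ.nonneg_normed t)]
  refine mul_le_mul_of_nonneg_left ((hg _ _).trans (le_of_eq ?_)) (φ.nonneg_normed t)
  congr 1
  abel

theorem mo_fd (φ : ContDiffBump (0 : V)) {g : V → ℝ} (hg : ∀ y z, |g y - g z| ≤ len (y - z)) (y n : V) {c : ℝ}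
    (h : ∀ t ∈ ball (0 : V) φ.rOut, DifferentiableAt ℝ g (y - t) → c ≤ fderiv ℝ g (y - t) n) :
    c ≤ fderiv ℝ (mo φ g) y n := by
  have hc : Continuous g := (lip_of hg).continuous
  have hG : ContDiff ℝ ∞ (mo φ g) := mo_sm φ hc
  have hdG : DifferentiableAt ℝ (mo φ g) y := (hG.differentiable (by simp)).differentiableAt
  -- the sequence
  set h' : ℕ → ℝ := fun k => ((k : ℝ) + 1)⁻¹ with hh'
  have hpos : ∀ k, 0 < h' k := fun k => by rw [hh']; positivity
  have hto : Tendsto h' atTop (𝓝 0) := by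
    have := tendsto_one_div_add_atTop_nhds_zero_nat (𝕜 := ℝ)
    refine this.congr fun k => ?_
    rw [hh', one_div]
  have hto' : Tendsto h' atTop (𝓝[≠] 0) :=
    tendsto_nhdsWithin_iff.2 ⟨hto, Eventually.of_forall fun k => (hpos k).ne'⟩
  have slp : ∀ {f : V → ℝ} {x : V}, DifferentiableAt ℝ f x →
      Tendsto (fun k => (h' k)⁻¹ * (f (x + h' k • n) - f x)) atTop (𝓝 (fderiv ℝ f x n)) := by
    intro f x hd
    have h1 : HasDerivAt (fun t : ℝ => f (x + t • n)) (fderiv ℝ f x n) 0 := by
      have h2 : HasDerivAt (fun t : ℝ => x + t • n) n 0 := by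
        have := ((hasDerivAt_id (0 : ℝ)).smul_const n).const_add x
        simpa using this
      have h3 : HasFDerivAt f (fderiv ℝ f x) (x + (0 : ℝ) • n) := by
        rw [zero_smul, add_zero]; exact hd.hasFDerivAt
      exact h3.comp_hasDerivAt 0 h2
    refine (h1.tendsto_slope.comp hto').congr fun k => ?_
    simp only [Function.comp_apply]
    rw [slope_def_field, zero_smul, add_zero, sub_zero, div_eq_inv_mul]
  have hL := slp hdG
  have hae : ∀ᵐ t : V, DifferentiableAt ℝ g (y - t) := by
    have h1 : ∀ᵐ x : V, DifferentiableAt ℝ g x := (lip_of hg).ae_differentiableAt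
    exact (Measure.measurePreserving_sub_left volume y).quasiMeasurePreserving.ae h1
  have hR : Tendsto (fun k => ∫ t, φ.normed volume t * ((h' k)⁻¹ * (g (y - t + h' k • n) - g (y - t)))) atTop
      (𝓝 (∫ t, φ.normed volume t * fderiv ℝ g (y - t) n)) := by
    refine tendsto_integral_of_dominated_convergence (fun t => φ.normed volume t * len n) ?_
      (φ.integrable_normed.mul_const _) ?_ ?_
    · intro k
      refine (φ.continuous_normed.mul (continuous_const.mul ((hc.comp (by fun_prop)).sub (hc.comp (by fun_prop))))).aestronglyMeasurable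
    · intro k
      refine Eventually.of_forall fun t => ?_
      rw [norm_mul, Real.norm_eq_abs, abs_of_nonneg (φ.nonneg_normed t)]
      refine mul_le_mul_of_nonneg_left ?_ (φ.nonneg_normed t)
      rw [norm_mul, Real.norm_eq_abs, Real.norm_eq_abs, abs_of_pos (inv_pos.2 (hpos k)), inv_mul_le_iff₀ (hpos k)]
      refine (hg _ _).trans ?_
      rw [add_sub_cancel_left, len_smul, abs_of_pos (hpos k)]
    · filter_upwards [hae] with t ht
      exact (slp ht).const_mul _
  have heq : ∀ k, (h' k)⁻¹ * (mo φ g (y + h' k • n) - mo φ g y) =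
      ∫ t, φ.normed volume t * ((h' k)⁻¹ * (g (y - t + h' k • n) - g (y - t))) := by
    intro k
    unfold mo
    rw [← integral_sub (mo_int φ hc _) (mo_int φ hc y), ← integral_const_mul]
    refine integral_congr_ae (Eventually.of_forall fun t => ?_)
    simp only
    have : y + h' k • n - t = y - t + h' k • n := by abel
    rw [this]
    ring
  simp_rw [heq] at hL
  have hfin := tendsto_nhds_unique hL hR
  rw [hfin]
  have hone : ∫ t, φ.normed volume t * c = c := by rw [integral_mul_const, φ.integral_normed, one_mul]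
  rw [← hone]
  refine integral_mono_ae (φ.integrable_normed.mul_const _) ?_ ?_
  · -- integrability
    have hm : AEStronglyMeasurable (fun t => φ.normed volume t * fderiv ℝ g (y - t) n) volume := by
      have h2 : Measurable fun t : V => fderiv ℝ g (y - t) n :=
        (measurable_fderiv_apply_const ℝ g n).comp (by fun_prop)
      exact (φ.continuous_normed.measurable.mul h2).aestronglyMeasurable
    refine (φ.integrable_normed.mul_const (len n)).mono' hm ?_
    filter_upwards [hae] with t ht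
    rw [norm_mul, Real.norm_eq_abs, abs_of_nonneg (φ.nonneg_normed t)]
    exact mul_le_mul_of_nonneg_left (fd_le_len hg ht n) (φ.nonneg_normed t)
  · filter_upwards [hae] with t ht
    by_cases hb : t ∈ ball (0 : V) φ.rOut
    · exact mul_le_mul_of_nonneg_left (h t hb ht) (φ.nonneg_normed t)
    · have : φ.normed volume t = 0 := by
        rw [← Function.notMem_support, φ.support_normed_eq]
        exact hb
      rw [this, zero_mul, zero_mul]

theorem th_const {θ : V → ℝ} {a y : V} {R δ : ℝ} {z : V → V} (hθ : Orient θ a R z) (hδ : 0 < δ)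
    (h : ∀ p ∈ ball y δ, ‖p - a‖ ≤ R ∧ z p ≠ 0) : ∀ p ∈ ball y δ, θ p = θ y := by
  intro p hp
  have hy : y ∈ ball y δ := mem_ball_self hδ
  have hcon : IsPreconnected (ball y δ) := (convex_ball y δ).isPreconnected
  have hc : ContinuousOn θ (ball y δ) := hθ.2.mono fun q hq => h q hq
  have hno : ∀ q r, q ∈ ball y δ → r ∈ ball y δ → θ q = -1 → θ r = 1 → False := by
    intro q r hq hr h1 h2
    have h3 := hcon.intermediate_value hq hr hc
    have h4 : (0 : ℝ) ∈ Icc (θ q) (θ r) := by rw [h1, h2]; constructor <;> norm_num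
    obtain ⟨w, -, hw⟩ := h3 h4
    rcases hθ.1 w with h5 | h5 <;> rw [h5] at hw <;> norm_num at hw
  rcases hθ.1 p with h1 | h1 <;> rcases hθ.1 y with h2 | h2
  · rw [h1, h2]
  · exact (hno y p hy hp h2 h1).elim
  · exact (hno p y hp hy h1 h2).elim
  · rw [h1, h2]

theorem task_Mol : StmMol := by
  intro v θ m g a R ε hv hR hε hε1 hm hm0 hθ hg harc
  have hgc : Continuous g := (lip_of hg).continuous
  have hvs := vort_sm hv
  have hvc : Continuous (vort v) := hvs.continuous
  -- uniform continuity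
  have hcomp : IsCompact (closedBall a R) := isCompact_closedBall a R
  have huc := hcomp.uniformContinuousOn_of_continuous (hvc.prodMk hm).continuousOn
  rw [Metric.uniformContinuousOn_iff] at huc
  obtain ⟨δ₁, hδ₁, huc⟩ := huc (1 / 16) (by norm_num)
  set δ : ℝ := min δ₁ (R / 2) with hδdef
  have hδ : 0 < δ := by positivity
  have hδ2 : δ ≤ R / 2 := min_le_right _ _
  have hδ1 : δ ≤ δ₁ := min_le_left _ _
  obtain ⟨φ, hφ⟩ : ∃ φ : ContDiffBump (0 : V), φ.rOut = δ / 2 :=
    ⟨⟨δ / 4, δ / 2, by positivity, by linarith⟩, rfl⟩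
  refine ⟨mo φ g, (mo_sm φ hgc).of_le (by norm_cast), mo_lip φ hg, fun y hy => ?_⟩
  have hlz : ∀ q p, len (θ q • vort v p) = om v p := by
    intro q p
    rw [len_smul]
    rcases hθ.1 q with h | h <;> rw [h] <;> simp [om]
  have hom0 : 0 ≤ om v y := len_nonneg _
  rcases le_or_gt (om v y) (m y + 1) with hcase | hcase
  · have h1 := fd_le_len (mo_lip φ hg) (((mo_sm φ hgc).differentiable (by simp)).differentiableAt (x := y)) (θ y • vort v y)
    rw [hlz] at h1
    have h2 := (abs_le.1 h1).1
    nlinarith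
  · have hball : ∀ p ∈ ball y δ, ‖p - a‖ ≤ R := by
      intro p hp
      rw [Metric.mem_ball, dist_eq_norm] at hp
      have : p - a = (p - y) + (y - a) := by abel
      rw [this]
      refine (norm_add_le _ _).trans ?_
      linarith
    have hya : y ∈ closedBall a R := by
      rw [Metric.mem_closedBall, dist_eq_norm]
      linarith
    have hnear : ∀ p ∈ ball y δ, len (vort v y - vort v p) ≤ 1 / 8 ∧ |m y - m p| ≤ 1 / 16 := by
      intro p hp
      have hpa : p ∈ closedBall a R := by
        rw [Metric.mem_closedBall, dist_eq_norm]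
        exact hball p hp
      have h1 := huc y hya p hpa (by rw [dist_comm]; exact (Metric.mem_ball.1 hp).trans_le hδ1)
      rw [Prod.dist_eq, max_lt_iff] at h1
      simp only at h1
      rw [dist_eq_norm, Real.dist_eq] at h1
      refine ⟨?_, h1.2.le⟩
      have h2 := len_le_norm (vort v y - vort v p)
      linarith [h1.1]
    have homp : ∀ p ∈ ball y δ, om v y - 1 / 8 ≤ om v p := by
      intro p hp
      have h1 := (hnear p hp).1
      have h2 := len_add_le (vort v y - vort v p) (vort v p)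
      rw [sub_add_cancel] at h2
      unfold om
      linarith
    have hmp : ∀ p ∈ ball y δ, m p < om v p := by
      intro p hp
      have h1 := homp p hp
      have h2 := (abs_le.1 (hnear p hp).2).1
      linarith
    have hvp : ∀ p ∈ ball y δ, vort v p ≠ 0 := by
      intro p hp
      exact ne_zero_of_len ((hm0 p).trans_lt (hmp p hp))
    have hθc := th_const hθ hδ fun p hp => ⟨hball p hp, hvp p hp⟩
    have hθ0 : θ y ≠ 0 := by rcases hθ.1 y with h | h <;> rw [h] <;> norm_num
    have hFs : ContDiff ℝ ∞ (fun p => θ y • vort v p) := hvs.const_smul (θ y)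
    have key : ε * om v y - 1 / 4 ≤ fderiv ℝ (mo φ g) y (θ y • vort v y) := by
      refine mo_fd φ hg y _ fun t ht hd => ?_
      rw [hφ, mem_ball_zero_iff] at ht
      have hyt : y - t ∈ ball y (δ / 2) := by
        rw [Metric.mem_ball, dist_eq_norm]
        have : y - t - y = -t := by abel
        rw [this, norm_neg]
        exact ht
      have hyt2 : y - t ∈ ball y δ := ball_subset_ball (by linarith) hyt
      have hsub : ball (y - t) (δ / 2) ⊆ ball y δ := by
        intro p hp
        rw [Metric.mem_ball] at hp hyt ⊢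
        have := dist_triangle p (y - t) y
        linarith
      have h1 := fd_arc (z := fun y => θ y • vort v y) (F := fun p => θ y • vort v p)
        (D := {y | ‖y - a‖ ≤ R ∧ m y < om v y}) (y := y - t) (δ := δ / 2) (ε := ε) (by positivity)
        (fun p hp => by show θ p • vort v p = θ y • vort v p; rw [hθc p (hsub hp)])
        (fun p hp => ⟨hball p (hsub hp), hmp p (hsub hp)⟩)
        hFs (smul_ne_zero hθ0 (hvp _ hyt2)) hd harc
      rw [hlz] at h1
      have h2 : fderiv ℝ g (y - t) (θ y • vort v y) = fderiv ℝ g (y - t) (θ y • vort v (y - t)) +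
          fderiv ℝ g (y - t) (θ y • (vort v y - vort v (y - t))) := by
        rw [← map_add, ← smul_add, add_sub_cancel]
      have h3 := fd_le_len hg hd (θ y • (vort v y - vort v (y - t)))
      have h4 : len (θ y • (vort v y - vort v (y - t))) = len (vort v y - vort v (y - t)) := by
        rw [len_smul]
        rcases hθ.1 y with h | h <;> rw [h] <;> simp
      rw [h4] at h3
      have h5 := (hnear _ hyt2).1
      have h6 := (abs_le.1 h3).1
      have h7 := homp _ hyt2
      have h8 : ε * (om v y - 1 / 8) ≤ ε * om v (y - t) := mul_le_mul_of_nonneg_left h7 hε.le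
      rw [h2]
      nlinarith
    have h9 := hm0 y
    have h10 : 0 ≤ ε * om v y := by positivity
    linarith

end Pool.Agent.Q61.VL
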