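import Pool.Agent.Q98.VL.Mor
import Pool.Agent.Q182.VL.Base
import Pool.Agent.Q182.VL.Bas

set_option autoImplicit false

/-!
Project VL (helper85), job VL-8: the pinching lemma.
-/

open MeasureTheory Set Metric Filter Topology
open scoped ContDiff
open H459R3.NS Pool.Agent.W268.NS Pool.Agent.Q67.VD

namespace Pool.Agent.Q61.VL

open Pool.Agent.Q85.CC Pool.Agent.Q85.CL Pool.Agent.Q151.CC Pool.Agent.Q85.VL Pool.Agent.Q98.VL

section
variable {κ ρ R r μ : ℝ} {x : V} {f m : V → ℝ} {W : V → V} {g : V → ℝ}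

/-- the mirrored data -/
theorem mirror (h : LF κ R x f m W g) : LF κ R x f m (fun y => -W y) (fun y => -g y) := by
  refine ⟨⟨h.wd.cont.neg, fun F hF hs => ?_⟩, h.fc, h.mc, h.m0, fun y hy => ?_, h.gs.neg, fun y z => ?_, fun y hy => ?_⟩
  · have h1 := h.wd.div F hF hs
    simp only [map_neg]
    rw [integral_neg, h1, neg_zero]
  · have h1 : len (-W y) = len (W y) := by unfold len; simp
    rw [h1]
    exact h.up y hy
  · rw [neg_sub_neg, abs_sub_comm]
    exact h.lip y z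
  · have h1 : fderiv ℝ (fun y => -g y) y (-W y) = fderiv ℝ g y (W y) := by
      rw [fderiv_fun_neg]
      simp
    rw [h1]
    exact h.lo y hy

theorem AA_nonneg (hκ : 0 < κ) (hρ : 0 < ρ) (h : LF κ R x f m W g) (hr : 0 < r) : 0 ≤ AA κ ρ R g x W m r :=
  setIntegral_nonneg measurableSet_closedBall fun _ hy =>
    Pool.Agent.Q182.VL.pr_nonneg Pool.Agent.Q182.VL.stmBas hκ hρ h hr hy

/-- comparison of the fluxes at the scales with the numbers `i ≤ n` -/
theorem cmp_chain (hC : StmCmp) (hκ : 0 < κ) (hκ1 : κ ≤ 1) (hρ : 0 < ρ) (hR : 0 < R)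
    (h : LF κ R x f m W g) (hK : KS R x m μ) (i n : ℕ) (hin : i ≤ n) :
    AA κ ρ R g x W m ((1 / 256) ^ n * (R / 4)) ≤ AA κ ρ R g x W m ((1 / 256) ^ i * (R / 4)) + 262144 / κ * μ := by
  have h1 : ∀ n : ℕ, i ≤ n → AA κ ρ R g x W m ((1 / 256) ^ n * (R / 4)) ≤
      AA κ ρ R g x W m ((1 / 256) ^ i * (R / 4)) + 262144 / κ * ∑ j ∈ Finset.Ico i n,
        ((1 / 256 : ℝ) ^ j * R)⁻¹ * ∫ y in closedBall x ((1 / 256 : ℝ) ^ j * R), m y := by
    intro n hn
    induction n, hn using Nat.le_induction with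
    | base => simp
    | succ n hn ih =>
      have hp : (0 : ℝ) < (1 / 256) ^ n := by positivity
      have hp1 : (1 / 256 : ℝ) ^ n ≤ 1 := pow_le_one₀ (by norm_num) (by norm_num)
      have h2 := hC κ ρ R ((1 / 256) ^ n * (R / 4)) ((1 / 256) ^ (n + 1) * (R / 4)) x f m W g
        hκ hκ1 hρ h (by positivity) (by rw [pow_succ]; nlinarith) (by nlinarith)
      have h3 : 256 / (κ * ((1 / 256) ^ (n + 1) * (R / 4))) *
          ∫ y in closedBall x ((1 / 256) ^ n * (R / 4)), m y ≤ 262144 / κ *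
          (((1 / 256 : ℝ) ^ n * R)⁻¹ * ∫ y in closedBall x ((1 / 256 : ℝ) ^ n * R), m y) := by
        have e : 256 / (κ * ((1 / 256) ^ (n + 1) * (R / 4))) =
            262144 / κ * ((1 / 256 : ℝ) ^ n * R)⁻¹ := by
          rw [pow_succ]
          field_simp
          ring
        rw [e, mul_assoc]
        refine mul_le_mul_of_nonneg_left ?_ (by positivity)
        refine mul_le_mul_of_nonneg_left ?_ (by positivity)
        exact int_mono_m h (by nlinarith)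
      rw [Finset.sum_Ico_succ_top hn, mul_add]
      linarith
  have h2 : ∑ j ∈ Finset.Ico i n, ((1 / 256 : ℝ) ^ j * R)⁻¹ * ∫ y in closedBall x ((1 / 256 : ℝ) ^ j * R), m y ≤ μ := by
    refine le_trans ?_ (hK n)
    refine Finset.sum_le_sum_of_subset_of_nonneg ?_ fun j _ _ => mul_nonneg (by positivity) (int_m_nonneg h _)
    intro j hj
    rw [Finset.mem_Ico] at hj
    rw [Finset.mem_range]
    exact hj.2
  have h3 := h1 n hin
  have h4 : 262144 / κ * ∑ j ∈ Finset.Ico i n, ((1 / 256 : ℝ) ^ j * R)⁻¹ *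
      ∫ y in closedBall x ((1 / 256 : ℝ) ^ j * R), m y ≤ 262144 / κ * μ := mul_le_mul_of_nonneg_left h2 (by positivity)
  linarith

/-- the remainder in the cube with the number `k` -/
theorem m_le (h : LF κ R x f m W g) (hR : 0 < R) (hK : KS R x m μ) (k : ℕ) {a : ℝ}
    (ha : a ≤ (1 / 256) ^ k * (R / 4)) : ∫ y in closedBall x a, m y ≤ 4 * ((1 / 256) ^ k * (R / 4)) * μ := by
  have h1 := KS_term h hR hK k
  have h2 : (0 : ℝ) < (1 / 256) ^ k := by positivity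
  have h3 := int_mono_m h (a := a) (b := (1 / 256) ^ k * R) (by nlinarith)
  have h4 : 4 * ((1 / 256) ^ k * (R / 4)) * μ = (1 / 256) ^ k * R * μ := by ring
  rw [h4]
  exact h3.trans h1

/-- the lower bound of the fluxes -/
theorem low (hC : StmCmp) (hL : StmLB) (hκ : 0 < κ) (hκ1 : κ ≤ 1) (hρ : 0 < ρ) (hR : 0 < R)
    (h : LF κ R x f m W g) (hK : KS R x m μ) {η : ℝ} (hη : 0 < η) (hμ : μ ≤ κ ^ 2 / 2 ^ 43 * η)
    (hf : η * ρ ≤ ∫ y in closedBall x ρ, f y) {n : ℕ} (hn1 : 128 / κ * ρ ≤ (1 / 256 : ℝ) ^ n * (R / 4))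
    (hn2 : (1 / 256 : ℝ) ^ n * (R / 4) ≤ 32768 / κ * ρ) {i : ℕ} (hin : i ≤ n) :
    κ * η / 2 ^ 24 ≤ AA κ ρ R g x W m ((1 / 256) ^ i * (R / 4)) := by
  have hμ0 := mu_nonneg hK
  have h1 := cmp_chain hC hκ hκ1 hρ hR h hK i n hin
  set s : ℝ := (1 / 256) ^ n * (R / 4) with hs
  have hs0 : 0 < s := by positivity
  have hp1 : (1 / 256 : ℝ) ^ n ≤ 1 := pow_le_one₀ (by norm_num) (by norm_num)
  have hsR : s ≤ R := by rw [hs]; nlinarith
  have h2 := hL κ ρ R s x f m W g hκ hκ1 hρ h hn1 hsR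
  have h3 := m_le h hR hK n (a := s) le_rfl
  rw [← hs] at h3
  have hsκ : κ * s / 32768 ≤ ρ := by
    rw [div_mul_eq_mul_div, le_div_iff₀ hκ] at hn2
    rw [div_le_iff₀ (by norm_num)]
    linarith
  -- `2 κ ρ η ρ ≥ 2 κ η (κ s / 32768)²`
  have h4 : 2 * κ * η * (κ * s / 32768) ^ 2 ≤ 2 * κ * ρ * ∫ y in closedBall x ρ, f y := by
    have h5 : (κ * s / 32768) ^ 2 ≤ ρ ^ 2 := pow_le_pow_left₀ (by positivity) hsκ 2
    calc 2 * κ * η * (κ * s / 32768) ^ 2 ≤ 2 * κ * η * ρ ^ 2 := mul_le_mul_of_nonneg_left h5 (by positivity)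
      _ = 2 * κ * ρ * (η * ρ) := by ring
      _ ≤ _ := mul_le_mul_of_nonneg_left hf (by positivity)
  have h5 : κ * s / 4 * ∫ y in closedBall x s, m y ≤ κ * s ^ 2 * μ := by
    calc κ * s / 4 * ∫ y in closedBall x s, m y ≤ κ * s / 4 * (4 * s * μ) := mul_le_mul_of_nonneg_left h3 (by positivity)
      _ = κ * s ^ 2 * μ := by ring
  have h6 : κ ^ 2 * s ^ 2 / 64 * (κ * η / 2 ^ 23 - 64 * μ / κ) ≤ κ ^ 2 * s ^ 2 / 64 * AA κ ρ R g x W m s := by
    have e1 : κ ^ 2 * s ^ 2 / 64 * (κ * η / 2 ^ 23 - 64 * μ / κ) = 2 * κ * η * (κ * s / 32768) ^ 2 - κ * s ^ 2 * μ := by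
      field_simp
      ring
    have e2 : (κ * s / 8) ^ 2 * AA κ ρ R g x W m s = κ ^ 2 * s ^ 2 / 64 * AA κ ρ R g x W m s := by ring
    rw [e1, ← e2]
    linarith
  have h7 := le_of_mul_le_mul_left h6 (by positivity)
  have h8 : (64 + 262144) / κ * μ ≤ κ * η / 2 ^ 24 := by
    have h9 : (64 + 262144) / κ * μ ≤ (64 + 262144) / κ * (κ ^ 2 / 2 ^ 43 * η) := mul_le_mul_of_nonneg_left hμ (by positivity)
    have h10 : (64 + 262144) / κ * (κ ^ 2 / 2 ^ 43 * η) = (64 + 262144) / 2 ^ 43 * (κ * η) := by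
      field_simp
    have h11 : 0 < κ * η := by positivity
    rw [h10] at h9
    refine h9.trans ?_
    norm_num
    nlinarith
  have h12 : 64 * μ / κ + 262144 / κ * μ = (64 + 262144) / κ * μ := by ring
  have h13 : κ * η / 2 ^ 23 = κ * η / 2 ^ 24 + κ * η / 2 ^ 24 := by ring
  linarith

/-- the shell bound -/
theorem shell (hF : StmFC) (hκ : 0 < κ) (hκ1 : κ ≤ 1) (hρ : 0 < ρ) (hR : 0 < R)
    (h : LF κ R x f m W g) (hK : KS R x m μ) {η : ℝ} (hη : 0 < η) (hμ : μ ≤ κ ^ 2 / 2 ^ 43 * η) {k : ℕ}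
    (hlow : κ * η / 2 ^ 24 ≤ AA κ ρ R g x W m ((1 / 256) ^ (k + 1) * (R / 4))) {s w : ℝ}
    (hs1 : (1 / 256) ^ k * (R / 4) / 64 ≤ s) (hs2 : s ≤ (1 / 256) ^ k * (R / 4) / 32) (hw : 0 < w) (hws : w ≤ s / 4) :
    κ * η / 2 ^ 26 * w ≤ ∫ y in Shell x s w ∩ {y | 0 < uu κ ρ g x y}, f y := by
  set r : ℝ := (1 / 256) ^ k * (R / 4) with hr
  have hp : (0 : ℝ) < (1 / 256) ^ k := by positivity
  have hp1 : (1 / 256 : ℝ) ^ k ≤ 1 := pow_le_one₀ (by norm_num) (by norm_num)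
  have hr0 : 0 < r := by positivity
  have hrR : r ≤ R := by rw [hr]; nlinarith
  have e0 : (1 / 256 : ℝ) ^ (k + 1) * (R / 4) = r / 256 := by rw [hr, pow_succ]; ring
  rw [e0] at hlow
  have h1 := hF κ ρ R (r / 256) s w x f m W g hκ hκ1 hρ h (by positivity) (by linarith) hw hws (by linarith)
  have h2 := m_le h hR hK k (a := s + w) (by rw [← hr]; linarith)
  rw [← hr] at h2
  have h3 : 256 / (κ * (r / 256)) * ∫ y in closedBall x (s + w), m y ≤ 262144 / κ * μ := by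
    calc 256 / (κ * (r / 256)) * ∫ y in closedBall x (s + w), m y ≤ 256 / (κ * (r / 256)) * (4 * r * μ) :=
          mul_le_mul_of_nonneg_left h2 (by positivity)
      _ = 262144 / κ * μ := by
          field_simp
          ring
  have h8 : 262144 / κ * μ ≤ κ * η / 2 ^ 25 := by
    have h9 : 262144 / κ * μ ≤ 262144 / κ * (κ ^ 2 / 2 ^ 43 * η) := mul_le_mul_of_nonneg_left hμ (by positivity)
    have h10 : 262144 / κ * (κ ^ 2 / 2 ^ 43 * η) = κ * η / 2 ^ 25 := by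
      field_simp
      norm_num
    linarith
  have h11 : κ * η / 2 ^ 25 ≤ 2 / w * ∫ y in Shell x s w ∩ {y | 0 < uu κ ρ g x y}, f y := by
    have h13 : κ * η / 2 ^ 24 = κ * η / 2 ^ 25 + κ * η / 2 ^ 25 := by ring
    linarith
  have h12 := mul_le_mul_of_nonneg_right h11 hw.le
  have e1 : 2 / w * (∫ y in Shell x s w ∩ {y | 0 < uu κ ρ g x y}, f y) * w =
      2 * ∫ y in Shell x s w ∩ {y | 0 < uu κ ρ g x y}, f y := by
    field_simp
  rw [e1] at h12
  have e2 : κ * η / 2 ^ 25 * w = 2 * (κ * η / 2 ^ 26 * w) := by ring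
  linarith

theorem uu_cont (hρ : 0 < ρ) (h : LF κ R x f m W g) : Continuous (uu κ ρ g x) :=
  (Pool.Agent.Q182.VL.uu_one Pool.Agent.Q182.VL.stmBas hρ h.gs).continuous

/-- a point of the surface where `u` is not negative -/
theorem pos_pt (hF : StmFC) (hκ : 0 < κ) (hκ1 : κ ≤ 1) (hρ : 0 < ρ) (hR : 0 < R)
    (h : LF κ R x f m W g) (hK : KS R x m μ) {η : ℝ} (hη : 0 < η) (hμ : μ ≤ κ ^ 2 / 2 ^ 43 * η) {k : ℕ}
    (hlow : κ * η / 2 ^ 24 ≤ AA κ ρ R g x W m ((1 / 256) ^ (k + 1) * (R / 4))) {s : ℝ}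
    (hs1 : (1 / 256) ^ k * (R / 4) / 64 ≤ s) (hs2 : s ≤ (1 / 256) ^ k * (R / 4) / 32) :
    ∃ y ∈ sphere x s, 0 ≤ uu κ ρ g x y := by
  by_contra hcon
  push Not at hcon
  have hs0 : 0 < s := lt_of_lt_of_le (by positivity) hs1
  have huc := uu_cont hρ h
  -- an open neighbourhood of the sphere
  have hopen : IsOpen {y | uu κ ρ g x y < 0} := isOpen_lt huc continuous_const
  have hsub : sphere x s ⊆ {y | uu κ ρ g x y < 0} := fun y hy => hcon y hy
  obtain ⟨w, hw, hws, hwsub⟩ : ∃ w : ℝ, 0 < w ∧ w ≤ s / 4 ∧ Shell x s w ⊆ {y | uu κ ρ g x y < 0} := by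
    by_contra hno
    push Not at hno
    -- a sequence of bad points
    have hbad : ∀ n : ℕ, ∃ y, y ∈ Shell x s (s / 4 / (n + 1)) ∧ 0 ≤ uu κ ρ g x y := by
      intro n
      have h1 : 0 < s / 4 / ((n : ℝ) + 1) := by positivity
      have h2 : s / 4 / ((n : ℝ) + 1) ≤ s / 4 := div_le_self (by positivity) (by linarith [Nat.cast_nonneg (α := ℝ) n])
      have h3 := hno _ h1 h2
      rw [not_subset] at h3
      obtain ⟨y, hy1, hy2⟩ := h3
      exact ⟨y, hy1, not_lt.1 hy2⟩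
    choose y hy1 hy2 using hbad
    have hin : ∀ n, y n ∈ closedBall x (2 * s) := by
      intro n
      have h0 : |‖y n - x‖ - s| ≤ s / 4 / ((n : ℝ) + 1) := hy1 n
      have h1 := (abs_le.1 h0).2
      have h2 : s / 4 / ((n : ℝ) + 1) ≤ s / 4 := div_le_self (by positivity) (by linarith [Nat.cast_nonneg (α := ℝ) n])
      rw [Metric.mem_closedBall, dist_eq_norm]
      linarith
    obtain ⟨y₀, -, φ, hφ, hlim⟩ := (isCompact_closedBall x (2 * s)).tendsto_subseq hin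
    have h1 : Tendsto (fun n => |‖y (φ n) - x‖ - s|) atTop (𝓝 |‖y₀ - x‖ - s|) :=
      (((hlim.sub_const x).norm).sub_const s).abs
    have h2 : Tendsto (fun n : ℕ => s / 4 / ((φ n : ℝ) + 1)) atTop (𝓝 0) := by
      have h3 : Tendsto (fun n : ℕ => s / 4 / ((n : ℝ) + 1)) atTop (𝓝 0) :=
        Tendsto.const_div_atTop (tendsto_natCast_atTop_atTop.atTop_add tendsto_const_nhds) _
      exact h3.comp hφ.tendsto_atTop
    have h3 : |‖y₀ - x‖ - s| ≤ 0 := le_of_tendsto_of_tendsto' h1 h2 fun n => hy1 (φ n)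
    have h4 : y₀ ∈ sphere x s := by
      rw [mem_sphere, dist_eq_norm]
      have := abs_nonpos_iff.1 h3
      linarith
    have h5 : 0 ≤ uu κ ρ g x y₀ :=
      ge_of_tendsto' ((huc.tendsto y₀).comp hlim) fun n => hy2 (φ n)
    linarith [hcon y₀ h4]
  have h1 := shell hF hκ hκ1 hρ hR h hK hη hμ hlow hs1 hs2 hw hws
  have h2 : Shell x s w ∩ {y | 0 < uu κ ρ g x y} = ∅ := by
    rw [← Set.subset_empty_iff]
    rintro y ⟨hy1, hy2⟩
    have h3 : uu κ ρ g x y < 0 := hwsub hy1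
    have h4 : 0 < uu κ ρ g x y := hy2
    linarith
  rw [h2] at h1
  simp only [Measure.restrict_empty, integral_zero_measure] at h1
  have : 0 < κ * η / 2 ^ 26 * w := by positivity
  linarith

end

theorem pinV (hU : StmUB) (hC : StmCmp) (hL : StmLB) (hF : StmFC) (hT : StmTF) : StmPinV := by
  intro κ hκ hκ1
  refine ⟨κ / 524288, κ ^ 2 / 2 ^ 43, by positivity, by linarith, by positivity, ?_, ?_⟩
  · rw [div_le_one (by positivity)]
    nlinarith
  intro K η τ hK hη hη1 hτ hτ1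
  -- the numbers of scales
  obtain ⟨N1, hN1⟩ := exists_nat_gt (524288 / κ * (K + 1) / (256 * τ))
  obtain ⟨N0, hN0⟩ : ∃ N0 : ℕ, (1 / 256 : ℝ) ^ N0 < κ / 512 :=
    exists_pow_lt_of_lt_one (by positivity) (by norm_num)
  have hN1pos : 0 < N1 := by
    have h1 : 0 ≤ 524288 / κ * (K + 1) / (256 * τ) := by positivity
    have h2 : (0 : ℝ) < N1 := h1.trans_lt hN1
    exact_mod_cast h2
  refine ⟨N1 + N0, ?_⟩
  intro R ρ x f m W g hR h hfK hKS hρ hρN hfρ
  set μ : ℝ := κ ^ 2 / 2 ^ 43 * η * τ with hμdef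
  have hμ0 : 0 < μ := by positivity
  have hμη : μ ≤ κ ^ 2 / 2 ^ 43 * η := by
    rw [hμdef]
    exact mul_le_of_le_one_right (by positivity) hτ1
  have hκη : κ ^ 2 / 2 ^ 43 * η ≤ 1 := by
    have h1 : κ ^ 2 / 2 ^ 43 ≤ 1 := by
      rw [div_le_one (by positivity)]
      nlinarith
    calc κ ^ 2 / 2 ^ 43 * η ≤ 1 * 1 := mul_le_mul h1 hη1 hη.le zero_le_one
      _ = 1 := one_mul 1
  -- the scale `n`
  have hpow : (1 / 256 : ℝ) ^ (N1 + N0) ≤ (1 / 256 : ℝ) ^ N1 * (κ / 512) := by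
    rw [pow_add]
    exact mul_le_mul_of_nonneg_left hN0.le (by positivity)
  have hρκ : 512 / κ * ρ ≤ (1 / 256 : ℝ) ^ N1 * R := by
    have h1 : ρ ≤ (1 / 256 : ℝ) ^ N1 * (κ / 512) * R := hρN.trans (mul_le_mul_of_nonneg_right hpow hR.le)
    calc 512 / κ * ρ ≤ 512 / κ * ((1 / 256 : ℝ) ^ N1 * (κ / 512) * R) := mul_le_mul_of_nonneg_left h1 (by positivity)
      _ = (1 / 256 : ℝ) ^ N1 * R := by field_simp
  have h0 : ∀ j : ℕ, j ≤ N1 → 128 / κ * ρ ≤ (1 / 256 : ℝ) ^ j * (R / 4) := by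
    intro j hj
    have h1 : (1 / 256 : ℝ) ^ N1 ≤ (1 / 256 : ℝ) ^ j := pow_le_pow_of_le_one (by norm_num) (by norm_num) hj
    have h2 : 512 / κ * ρ ≤ (1 / 256 : ℝ) ^ j * R := hρκ.trans (mul_le_mul_of_nonneg_right h1 hR.le)
    have h3 : 128 / κ * ρ = 512 / κ * ρ / 4 := by ring
    rw [h3]
    linarith
  obtain ⟨n, hn0, hn1, hn2⟩ : ∃ n : ℕ, N1 ≤ n ∧ 128 / κ * ρ ≤ (1 / 256 : ℝ) ^ n * (R / 4) ∧
      (1 / 256 : ℝ) ^ (n + 1) * (R / 4) < 128 / κ * ρ := by
    by_contra hcon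
    push Not at hcon
    have hall : ∀ n : ℕ, N1 ≤ n → 128 / κ * ρ ≤ (1 / 256 : ℝ) ^ n * (R / 4) := by
      intro n hn
      induction n, hn using Nat.le_induction with
      | base => exact h0 N1 le_rfl
      | succ n hn ih => exact hcon n hn ih
    have ht : Tendsto (fun n : ℕ => (1 / 256 : ℝ) ^ n * (R / 4)) atTop (𝓝 (0 * (R / 4))) :=
      (tendsto_pow_atTop_nhds_zero_of_lt_one (by norm_num) (by norm_num)).mul_const _
    have h2 := ge_of_tendsto ht (eventually_atTop.2 ⟨N1, hall⟩)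
    have h3 : 0 < 128 / κ * ρ := by positivity
    linarith
  have hn3 : (1 / 256 : ℝ) ^ n * (R / 4) ≤ 32768 / κ * ρ := by
    have e : (1 / 256 : ℝ) ^ (n + 1) * (R / 4) = (1 / 256 : ℝ) ^ n * (R / 4) / 256 := by rw [pow_succ]; ring
    rw [e] at hn2
    have e2 : 32768 / κ * ρ = 256 * (128 / κ * ρ) := by ring
    rw [e2]
    linarith
  have hlow : ∀ i, i ≤ n → κ * η / 2 ^ 24 ≤ AA κ ρ R g x W m ((1 / 256) ^ i * (R / 4)) := fun i hi =>
    low hC hL hκ hκ1 hρ hR h hKS hη hμη hfρ hn1 hn3 hi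
  have hlow' : ∀ i, i ≤ n → κ * η / 2 ^ 24 ≤ AA κ ρ R (fun y => -g y) x (fun y => -W y) m ((1 / 256) ^ i * (R / 4)) :=
    fun i hi => low hC hL hκ hκ1 hρ hR (mirror h) hKS hη hμη hfρ hn1 hn3 hi
  -- the pigeonhole principle
  obtain ⟨k, hkN, hk⟩ : ∃ k < N1, AA κ ρ R g x W m ((1 / 256) ^ k * (R / 4)) -
      AA κ ρ R g x W m ((1 / 256) ^ (k + 1) * (R / 4)) ≤ 256 * τ := by
    by_contra hcon
    push Not at hcon
    have h1 : ∑ k ∈ Finset.range N1, (256 * τ) < ∑ k ∈ Finset.range N1, (AA κ ρ R g x W m ((1 / 256) ^ k * (R / 4)) -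
      AA κ ρ R g x W m ((1 / 256) ^ (k + 1) * (R / 4))) :=
      Finset.sum_lt_sum_of_nonempty (Finset.nonempty_range_iff.2 hN1pos.ne') fun k hk => hcon k (Finset.mem_range.1 hk)
    rw [Finset.sum_range_sub' (fun k => AA κ ρ R g x W m ((1 / 256) ^ k * (R / 4))), Finset.sum_const, Finset.card_range,
      nsmul_eq_mul] at h1
    have h2 := Pool.Agent.Q98.VL.chain hU hC hκ hκ1 hρ hR h hKS 0
    have h3 := AA_nonneg hκ hρ h (r := (1 / 256) ^ N1 * (R / 4)) (by positivity)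
    have h4 : (∫ y in closedBall x R, f y) / R + μ ≤ K + 1 := by
      have : (∫ y in closedBall x R, f y) / R ≤ K := by rwa [div_le_iff₀ hR]
      linarith
    have h5 : 524288 / κ * ((∫ y in closedBall x R, f y) / R + μ) ≤ 524288 / κ * (K + 1) :=
      mul_le_mul_of_nonneg_left h4 (by positivity)
    rw [div_lt_iff₀ (by positivity)] at hN1
    linarith
  have hk1n : k + 1 ≤ n := by omega
  refine ⟨k, by omega, fun s hs1 hs2 => ?_⟩
  set r : ℝ := (1 / 256) ^ k * (R / 4) with hr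
  have hp : (0 : ℝ) < (1 / 256) ^ k := by positivity
  have hp1 : (1 / 256 : ℝ) ^ k ≤ 1 := pow_le_one₀ (by norm_num) (by norm_num)
  have hr0 : 0 < r := by positivity
  have hrR : r ≤ R := by rw [hr]; nlinarith
  have hs0 : 0 < s := lt_of_lt_of_le (by positivity) hs1
  refine ⟨?_, ?_⟩
  · -- the point `z`
    obtain ⟨y2, hy2, hu2⟩ := pos_pt hF hκ hκ1 hρ hR h hKS hη hμη (hlow (k + 1) hk1n) hs1 hs2
    obtain ⟨y1, hy1, hu1⟩ := pos_pt hF hκ hκ1 hρ hR (mirror h) hKS hη hμη (hlow' (k + 1) hk1n) hs1 hs2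
    have hu1' : uu κ ρ g x y1 ≤ -(4 * (κ / 65536) * r) := by
      unfold uu at hu1 ⊢
      have h1 := Pool.Agent.Q182.VL.norm_le_ds (x := x) Pool.Agent.Q182.VL.stmBas hρ y1
      rw [mem_sphere, dist_eq_norm] at hy1
      rw [hy1] at h1
      have h2 : κ * (r / 64) ≤ κ * ds x ρ y1 := mul_le_mul_of_nonneg_left (hs1.trans h1) hκ.le
      have h3 : 0 < κ * r := by positivity
      nlinarith
    have hu2' : -(4 * (κ / 65536) * r) ≤ uu κ ρ g x y2 := by
      have : 0 < 4 * (κ / 65536) * r := by positivity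
      linarith
    have hconn : IsPreconnected (sphere x s) := by
      refine isPreconnected_sphere ?_ x s
      rw [rank_fun', Fintype.card_fin]
      norm_num
    have h1 := hconn.intermediate_value hy1 hy2 (uu_cont hρ h).continuousOn
    obtain ⟨z, hz, hzu⟩ := h1 ⟨hu1', hu2'⟩
    have hz' : ‖z - x‖ = s := by rw [mem_sphere, dist_eq_norm] at hz; exact hz
    refine ⟨z, hz', ?_⟩
    have hρr : ρ ≤ r / 64 := by
      have h2 := h0 k hkN.le
      rw [div_mul_eq_mul_div, div_le_iff₀ hκ, ← hr] at h2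
      nlinarith
    have h2 := hT κ ρ R r s x z f m W g hκ hκ1 hρ h hr0 hrR hρr hs1 hs2 hz' hzu
    have e0 : (1 / 256 : ℝ) ^ (k + 1) * (R / 4) = r / 256 := by rw [hr, pow_succ]; ring
    rw [e0] at hk
    have h3 := m_le h hR hKS k (a := r) le_rfl
    rw [← hr] at h3
    have h4 : r / 512 * (AA κ ρ R g x W m r - AA κ ρ R g x W m (r / 256)) ≤ r / 512 * (256 * τ) :=
      mul_le_mul_of_nonneg_left hk (by positivity)
    have h5 : 1024 / κ * ∫ y in closedBall x r, m y ≤ 1024 / κ * (4 * r * μ) := mul_le_mul_of_nonneg_left h3 (by positivity)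
    have h6 : 1024 / κ * (4 * r * μ) ≤ r / 512 * (256 * τ) := by
      have e1 : 1024 / κ * (4 * r * μ) = (4096 / 2 ^ 43 * (κ * η)) * (r * τ) := by
        rw [hμdef]
        field_simp
        ring
      have e2 : r / 512 * (256 * τ) = 1 / 2 * (r * τ) := by ring
      rw [e1, e2]
      refine mul_le_mul_of_nonneg_right ?_ (by positivity)
      have h7 : κ * η ≤ 1 := by
        calc κ * η ≤ 1 * 1 := mul_le_mul hκ1 hη1 hη.le zero_le_one
          _ = 1 := one_mul 1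
      have h8 : 0 < κ * η := by positivity
      norm_num
      nlinarith
    have h9 : τ * r = r / 512 * (256 * τ) + r / 512 * (256 * τ) := by ring
    rw [h9]
    linarith
  · intro w hw hws
    have h1 := shell hF hκ hκ1 hρ hR h hKS hη hμη (hlow (k + 1) hk1n) hs1 hs2 hw hws
    have hsR : s + w ≤ R := by linarith
    have hShell : Shell x s w ⊆ closedBall x R := by
      intro y hy
      have hy' : |‖y - x‖ - s| ≤ w := hy
      have := (abs_le.1 hy').2
      rw [Metric.mem_closedBall, dist_eq_norm]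
      linarith
    have hmeas : MeasurableSet (Shell x s w) := by
      unfold Shell
      exact (isClosed_le (by fun_prop) continuous_const).measurableSet
    have h2 : ∫ y in Shell x s w ∩ {y | 0 < uu κ ρ g x y}, f y ≤ ∫ y in Shell x s w, f y := by
      refine setIntegral_mono_set ((int_on' h.fc x R).mono_set hShell) ?_ inter_subset_left.eventuallyLE
      filter_upwards [ae_restrict_mem hmeas] with y hy
      exact f_nonneg' h (hShell hy)
    have h3 : κ ^ 2 / 2 ^ 43 * η * w ≤ κ * η / 2 ^ 26 * w := by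
      refine mul_le_mul_of_nonneg_right ?_ hw.le
      have h4 : κ ^ 2 * η ≤ κ * η := by
        refine mul_le_mul_of_nonneg_right ?_ hη.le
        nlinarith
      have h5 : 0 < κ * η := by positivity
      have e1 : κ ^ 2 / 2 ^ 43 * η = κ ^ 2 * η / 2 ^ 43 := by ring
      rw [e1]
      calc κ ^ 2 * η / 2 ^ 43 ≤ κ * η / 2 ^ 43 := by gcongr
        _ ≤ κ * η / 2 ^ 26 := by
            apply div_le_div_of_nonneg_left h5.le (by norm_num) (by norm_num)
    linarith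

end Pool.Agent.Q61.VL
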